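import Mathlib
import Pool.Agent.H902.SM.Far

set_option autoImplicit false

/-!
# Smooth general members: one arbitrary multiplicity

(2) Let `D = d H - ∑ m i E i` be ANY class with `m i ≤ b = d - m 1` for `i ≥ 2`, `m 1 ≥ 1` and
`χ (D) ≥ (b + 1) + b (b + 1) ^ 2 (b + 2) / 3`. Then `|D|` is nonspecial and its general member is smooth
on the blow-up (at general points; one open set for all `m 1`). The number of the points and the
multiplicities `m i ≤ b` are arbitrary. (Lean: `m 1 = c + 1`, `d = c + 1 + b`, and the condition is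
`3 χ (D - F) ≥ b (b + 1) ^ 2 (b + 2)` for `F = H - E 1`, `χ (D - F) = χ (D) - (b + 1)`.)

(1) One arbitrary multiplicity, the others at most `m`, `d ≥ w_p + 2 m`: sharper. Let `n ≥ 9` and `m` be given. For general points `P 1, …, P n` of the complex projective plane (one
nonempty open set for all `p`, `d` and `w`): let `w p` be arbitrary, `w i ≤ m` for the other `i`,
`w p + 2 m ≤ d`, `2 m < d`, and `(n - 1) m (m + 1) / 2 ≤ (2 m + 1) (d - m)`. Then the linear system
`|d H - ∑ w i E i|` is nonspecial and its general member is smooth on the blow-up.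

For the class `D = d H - (d - 2 m) E p - m ∑_{i ≠ p} E i` (which lies in the plane spanned by the
canonical class and the class `F = H - E p` of a pencil of rational curves) the last condition is
`χ (D) ≥ D F + 1 = 2 m + 1`, so that only the systems of this kind with `1 ≤ χ (D) ≤ 2 m` are left.

Idea: the conditions of `D - F` are independent (`Pool.Agent.H902.CB.expDim_vp`, used for
`MP_0dccba_ag.ConicBundlePlanes`; for (2) `Pool.Agent.H902.CB.far_plane`, used for
`MP_70e04f_ag.UnionsOfPencils`). Hence all sections over every line through `P p` extend, and the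
system is base point free on the blow-up, in all directions at the points `P i` too
(`Pool.Agent.H902.SM.smooth_of_fibre`); then Bertini's theorem. For `D` this is used for the smallest
possible degree only: independence for `D - F` implies independence for `D`
(`Pool.Agent.H902.SM.surj_up`).
-/

namespace Pool.Agent.Results.MP_0421d9_ag.OneLargeMultiplicitySmooth

open MvPolynomial Pool.Agent.H248R5

theorem result :
    -- (1) the other multiplicities are at most `m`, `d ≥ w p + 2 m`
    (∀ n : ℕ, 9 ≤ n → ∀ m : ℕ,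
      ∃ F : MvPolynomial (Fin n × Fin 2) ℂ, F ≠ 0 ∧ ∀ P : Fin n → Fin 2 → ℂ,
        eval (fun ij : Fin n × Fin 2 => P ij.1 ij.2) F ≠ 0 →
          ∀ (p : Fin n) (d : ℕ), 2 * m < d → (n - 1) * (m + 1).choose 2 ≤ (2 * m + 1) * (d - m) →
            ∀ w : Fin n → ℕ, w p + 2 * m ≤ d → (∀ i, i ≠ p → w i ≤ m) →
              Module.finrank ℂ ↥(forms w P d) + ∑ i, (w i + 1).choose 2 = (d + 2).choose 2 ∧
                GeneralMember (forms w P d) (SmoothMember w P)) ∧
    -- (2) the multiplicities `c + 1` and `v i ≤ b`, degree `d = c + b + 1`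
    (∀ (n b : ℕ) (v : Fin n → ℕ), 2 ≤ n → (∀ i, v i ≤ b) →
      ∃ F : MvPolynomial (Fin (n + 1) × Fin 2) ℂ, F ≠ 0 ∧ ∀ P : Fin (n + 1) → Fin 2 → ℂ,
        eval (fun ij : Fin (n + 1) × Fin 2 => P ij.1 ij.2) F ≠ 0 →
          ∀ c : ℕ, 3 * ((c + 1).choose 2 + ∑ i, (v i + 1).choose 2) + b * (b + 1) ^ 2 * (b + 2) ≤
              3 * (c + b + 2).choose 2 →
            Module.finrank ℂ ↥(forms (Fin.cons (c + 1) v : Fin (n + 1) → ℕ) P (c + b + 1)) +
                ∑ i, ((Fin.cons (c + 1) v : Fin (n + 1) → ℕ) i + 1).choose 2 =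
                  (c + b + 1 + 2).choose 2 ∧
              GeneralMember (forms (Fin.cons (c + 1) v : Fin (n + 1) → ℕ) P (c + b + 1))
                (SmoothMember (Fin.cons (c + 1) v : Fin (n + 1) → ℕ) P)) :=
  ⟨fun _ hn m => Pool.Agent.H902.SM.family hn m,
    fun _ _ _ hn hv => Pool.Agent.H902.SM.family_far hn hv⟩

end Pool.Agent.Results.MP_0421d9_ag.OneLargeMultiplicitySmooth
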