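import Mathlib
import Pool.Agent.H879.Pos.Smooth

set_option autoImplicit false

/-!
# Smooth general members: nine arbitrary multiplicities, or `k` of arbitrary common size

Let `v 1, …, v s` be multiplicities at `s ≥ 4` general points of the complex projective plane, and
let `d` be a degree such that the expected dimension `(d + 2).choose 2 - 1 - ∑ (v i + 1).choose 2` is
at least every `v k`. For all multiplicities `u i ≤ v i` the system `|d H - ∑ u i E i|` is nonspecial
and its general member is a smooth curve on the blow-up, in each of the following cases, for some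
`μ`:

* (A) `d` is larger than the sum of any three of the `v i`, at most NINE of the `v i` are larger than
  `μ` (these are arbitrary), and `d > 10 ^ 31 (μ + 2) ^ 14`;
* (B) at most `k` of the `v i` are larger than `μ`, `k ≥ 9`, these are at most `m`, and
  `d ≥ √k (m + 1 + 2 ^ 14 (μ + 2) ^ 3) + 2 ^ 43 (μ + 2) ^ 11`.

The number of the points is arbitrary. The points are all those of one nonempty open set, the same
for all `d`, `u`, `μ`, `m` and `k`.
-/

namespace Pool.Agent.Results.MP_0421d9_ag.SmoothAboveTenthMultiplicity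

open MvPolynomial Pool.Agent.H248R5

theorem result (s : ℕ) (hs : 4 ≤ s) (v : Fin s → ℕ) :
    ∃ F : MvPolynomial (Fin s × Fin 2) ℂ, F ≠ 0 ∧
      ∀ P : Fin s → Fin 2 → ℂ, eval (fun ij : Fin s × Fin 2 => P ij.1 ij.2) F ≠ 0 →
        ∀ d : ℕ, (∀ k, ∑ i, (v i + 1).choose 2 + v k < (d + 2).choose 2) →
          -- (A) nine arbitrary multiplicities
          ((∃ μ : ℕ, (∀ i j k : Fin s, i ≠ j → i ≠ k → j ≠ k → v i + v j + v k < d) ∧
              (Finset.univ.filter fun i => μ < v i).card ≤ 9 ∧ 10 ^ 31 * (μ + 2) ^ 14 < d) ∨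
          -- (B) `k` multiplicities up to `m`
            (∃ μ m k : ℕ, 9 ≤ k ∧ (Finset.univ.filter fun i => μ < v i).card ≤ k ∧
              (∀ i, μ < v i → v i ≤ m) ∧
              √(k : ℝ) * (m + 1 + 2 ^ 14 * ((μ : ℝ) + 2) ^ 3) + 2 ^ 43 * ((μ : ℝ) + 2) ^ 11 ≤ d)) →
          ∀ u : Fin s → ℕ, (∀ i, u i ≤ v i) →
            Module.finrank ℂ ↥(forms u P d) + ∑ i, (u i + 1).choose 2 = (d + 2).choose 2 ∧
              GeneralMember (forms u P d) (SmoothMember u P) := by
  obtain ⟨F, hF, h⟩ := H879.Pos.smooth_all hs v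
  have e31 : (10 : ℕ) ^ 31 = 10000000000000000000000000000000 := by norm_num
  have e14 : (2 : ℝ) ^ 14 = 16384 := by norm_num
  have e43 : (2 : ℝ) ^ 43 = 8796093022208 := by norm_num
  refine ⟨F.map (algebraMap ℚ ℂ), Pool.Agent.TH167.SH.map_ne hF, fun P hP d h1 h2 u hu => ?_⟩
  rw [Pool.Agent.TH167.SH.evP_eval] at hP
  refine h P hP u hu d ?_
  rcases h2 with ⟨μ, h2, h3, h4⟩ | ⟨μ, m, k, h2, h3, h4, h5⟩
  · rw [e31] at h4
    exact Or.inl ⟨h2, h1, μ, h3, h4⟩
  · rw [e14, e43] at h5
    exact Or.inr ⟨h1, μ, m, k, h2, h3, h4, h5⟩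

end Pool.Agent.Results.MP_0421d9_ag.SmoothAboveTenthMultiplicity
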