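import Mathlib
import Pool.Agent.H879.Nef.SmoothCore

set_option autoImplicit false

/-!
# Smooth general members over ample cores, multiplicities in a linear range

Let `p_1, …, p_s`, `s ≥ 4`, be very general points of the complex projective plane. Let `(d; v)` be a
degree and multiplicities, `T` ANY set of the points (the core), and suppose that the class
`D_0 = d H - ∑_{i ∈ T} v_i E_i` is ample on the blow-up at the points of `T`, more precisely
`D_0 C ≥ ρ e` for all curves `C` of degree `e`, for some `ρ > 0` (`Core`). The other points, in any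
number, have ARBITRARY multiplicities `v_i ≤ m`, where `m` is at most a small constant times `ρ`:
`10 ^ 25 √κ (m + 2) ≤ ρ δ ^ 10`, `0 < δ ≤ 1`, `κ ≥ 9`, `κ ≥ |T|`.

Let `L = (d + 3) H - ∑_{v_i ≥ 2} (v_i + 1) E_i` (`= D - K` away from the simple points). Suppose that
for all `k`

* the expected dimension of `|d H - ∑ v_i E_i|` is at least `v_k`,
* `L ^ 2 ≥ δ (m + 2) ^ 2 + 2 v_k + 9`,
* the virtual dimension of `|L|` is at least `v_k + 6`.

Then for all `u_i ≤ v_i` the system `|d H - ∑ u_i E_i|` is nonspecial and its general member is a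
smooth curve on the blow-up.

By the inequality of Nagata the class `D_0` is ample in this sense if the multiplicities of `T` are at
most `M` and `√κ M + ρ ≤ d` (`AmpleCore`). So the theorem holds for all systems with at most `κ`
multiplicities larger than `m`, these being at most `M`, if
`d ≥ √κ (M + 10 ^ 25 δ ^ (-10) (m + 2))`: the bound is LINEAR in `m` (the theorem
`SmoothAboveTenthMultiplicity` needs `2 ^ 43 (m + 2) ^ 11`, the results of the starting library for
arbitrary multiplicities `v_i ≤ μ` need `d ≥ 244 (μ + 1) ^ (3 / 2)` or an expected dimension of order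
`15000 (μ + 1) ^ 2`).

The proof. `L ± E_k` and the adjoint of `(d - 1; v - 1)` are nef, by the theorem on small points on
ample cores (MP_309968_ag.SmallPointsOnAmpleCores), big and effective; so the classes `(d; v + e_k)`
and `(d - 1; v - 1)` are nonspecial by the vanishing theorem for nef and big classes
(MP_d3128a_ag.VirtualAdjoint). This implies the smoothness of the general member by the criterion
`smooth_fam` of the starting library.
-/

namespace Pool.Agent.Results.MP_0421d9_ag.SmoothOverAmpleCores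

open MvPolynomial Pool.Agent.H248R5

/-- `D_0 C ≥ ρ e` for all curves `C` of degree `e`, for `D_0 = d H - ∑_{i ∈ T} v_i E_i`: for all `e`
and `c` such that there is a curve of degree `e` with multiplicities at least `c_i` at the points. -/
def Core {s : ℕ} (P : Fin s → Fin 2 → ℂ) (T : Finset (Fin s)) (d : ℕ) (v : Fin s → ℕ) (ρ : ℝ) :
    Prop :=
  ∀ (e : ℕ) (c : Fin s → ℕ), forms c P e ≠ ⊥ → ρ * e ≤ d * e - ∑ i ∈ T, (v i : ℝ) * c i

/-- The multiplicities of `L`: one more, at the points of multiplicity at least two. -/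
def adj {s : ℕ} (v : Fin s → ℕ) : Fin s → ℕ := fun i => if 2 ≤ v i then v i + 1 else 0

/-- `Core`, or an explicit condition which implies it (by the inequality of Nagata). -/
def AmpleCore {s : ℕ} (P : Fin s → Fin 2 → ℂ) (T : Finset (Fin s)) (d : ℕ) (v : Fin s → ℕ)
    (κ : ℕ) (ρ : ℝ) : Prop :=
  Core P T d v ρ ∨ ∃ M : ℝ, 0 ≤ M ∧ (∀ i ∈ T, (v i : ℝ) ≤ M) ∧ √(κ : ℝ) * M + ρ ≤ d

theorem core_of {r d κ : ℕ} {P : Fin (r + 4) → Fin 2 → ℂ}
    (hP : AlgebraicIndependent ℚ (fun ij : Fin (r + 4) × Fin 2 => P ij.1 ij.2))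
    {v : Fin (r + 4) → ℕ} {T : Finset (Fin (r + 4))} {ρ : ℝ} (hκ : 9 ≤ κ) (hTκ : T.card ≤ κ)
    (h : AmpleCore P T d v κ ρ) : Core P T d v ρ := by
  rcases h with h | ⟨M, hM0, hM, hd⟩
  · exact h
  · intro e c hne
    obtain ⟨F, hF, hF0⟩ := (Submodule.ne_bot_iff _).1 hne
    have h1 := H879.Pos.nagata_sub (n := r + 4) (k := κ) (e := e) hκ (c := c) hTκ
      (H879.Pos.crk_of_mem hP (G := F) hF0 hF)
    push_cast at h1
    have h2 : ∑ i ∈ T, (v i : ℝ) * c i ≤ M * ∑ i ∈ T, (c i : ℝ) := by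
      rw [Finset.mul_sum]
      exact Finset.sum_le_sum fun i hi => mul_le_mul_of_nonneg_right (hM i hi) (Nat.cast_nonneg _)
    have h3 : M * ∑ i ∈ T, (c i : ℝ) ≤ M * (√(κ : ℝ) * e) := mul_le_mul_of_nonneg_left h1 hM0
    have h4 : (√(κ : ℝ) * M + ρ) * e ≤ d * e := mul_le_mul_of_nonneg_right hd (Nat.cast_nonneg _)
    linarith

theorem result (s : ℕ) (hs : 4 ≤ s) :
    ∃ f : ℕ → MvPolynomial (Fin s × Fin 2) ℂ, (∀ k, f k ≠ 0) ∧
      ∀ P : Fin s → Fin 2 → ℂ, (∀ k, eval (fun ij : Fin s × Fin 2 => P ij.1 ij.2) (f k) ≠ 0) →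
        ∀ (d : ℕ) (v : Fin s → ℕ) (T : Finset (Fin s)) (κ : ℕ) (ρ m δ : ℝ), 9 ≤ κ → T.card ≤ κ →
          AmpleCore P T d v κ ρ → 0 ≤ m → (∀ i, i ∉ T → (v i : ℝ) ≤ m) → 0 < δ → δ ≤ 1 →
          10 ^ 25 * √(κ : ℝ) * (m + 2) ≤ ρ * δ ^ 10 →
          (∀ k, ∑ i, (v i + 1).choose 2 + v k < (d + 2).choose 2) →
          (∀ k, δ * (m + 2) ^ 2 + 2 * (v k : ℝ) + 9 ≤
            ((d : ℝ) + 3) ^ 2 - ∑ i, (adj v i : ℝ) ^ 2) →
          (∀ k, ∑ i, adj v i * (adj v i + 1) + 2 * v k + 12 < (d + 4) * (d + 5)) →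
          ∀ u : Fin s → ℕ, (∀ i, u i ≤ v i) →
            Module.finrank ℂ ↥(forms u P d) + ∑ i, (u i + 1).choose 2 = (d + 2).choose 2 ∧
              GeneralMember (forms u P d) (SmoothMember u P) := by
  classical
  obtain ⟨f, hf, h⟩ := Pool.Agent.TH167.SH.exists_fam (Fin s × Fin 2)
  refine ⟨f, hf, fun P hp => ?_⟩
  have hP := (h fun q => P q.1 q.2).1 hp
  intro d v T κ ρ m δ hκ hTκ hcore0 hm0 hm hδ0 hδ1 hsmall hχ hq heff u hu
  obtain ⟨r, rfl⟩ : ∃ r, s = r + 4 := ⟨s - 4, by omega⟩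
  have hcore := core_of hP hκ hTκ hcore0
  refine H879.Nef.smooth_good hs hP (H879.Nef.good_amp (ρ := ρ) (m := m) (δ := δ) (T := T) hP hκ
    hTκ (fun F e c hF0 hF hc => ?_) hm0 hm hδ0 hδ1 hsmall hχ hq heff) hu
  have h1 : forms c P e ≠ ⊥ := by
    intro h0
    refine hF0 ((Submodule.eq_bot_iff _).1 h0 F ?_)
    rw [← Pool.Agent.W609.CR.vs_eq_forms, Pool.Agent.TH167.SH.mem_VS]
    exact ⟨hF, hc⟩
  have h2 := hcore e c h1
  linarith

end Pool.Agent.Results.MP_0421d9_ag.SmoothOverAmpleCores
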